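import Pool.Agent.Helper41.PS.Goals
import Pool.Agent.Helper37.PP.HM

set_option autoImplicit false

open Finset Filter Topology

open scoped Classical

namespace Pool.Agent.Helper36.PS.SV2

open Pool.Agent.Helper41.PS

open Pool.Agent.Helper88.PP (pr om)

theorem one_le_prod_real {ι : Type} (S : Finset ι) (g : ι → ℝ) (hg : ∀ p ∈ S, 1 ≤ g p) :
    1 ≤ ∏ p ∈ S, g p := by
  have := Finset.prod_le_prod (s := S) (f := fun _ => (1 : ℝ)) (g := g) (fun _ _ => zero_le_one)
    (fun i hi => hg i hi)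
  simpa using this

/-- the product over a union is at most the product of the products -/
theorem prod_biUnion_le' {ι : Type} (S : Finset ι) (F : ι → Finset ℕ) (g : ℕ → ℝ)
    (hg : ∀ p, 1 ≤ g p) : ∏ p ∈ S.biUnion F, g p ≤ ∏ s ∈ S, ∏ p ∈ F s, g p := by
  induction S using Finset.induction_on with
  | empty => simp
  | insert s S hs ih =>
    rw [Finset.biUnion_insert, Finset.prod_insert hs]
    have h1 := Finset.prod_union_inter (s₁ := F s) (s₂ := S.biUnion F) (f := g)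
    have h2 : (1 : ℝ) ≤ ∏ p ∈ F s ∩ S.biUnion F, g p := one_le_prod_real _ _ fun p _ => hg p
    have h3 : (0 : ℝ) ≤ ∏ p ∈ F s ∪ S.biUnion F, g p :=
      Finset.prod_nonneg fun p _ => by linarith [hg p]
    have h4 : (0 : ℝ) ≤ ∏ p ∈ F s, g p := Finset.prod_nonneg fun p _ => by linarith [hg p]
    calc ∏ p ∈ F s ∪ S.biUnion F, g p
        ≤ (∏ p ∈ F s ∪ S.biUnion F, g p) * ∏ p ∈ F s ∩ S.biUnion F, g p := le_mul_of_one_le_right h3 h2
      _ = (∏ p ∈ F s, g p) * ∏ p ∈ S.biUnion F, g p := h1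
      _ ≤ _ := mul_le_mul_of_nonneg_left ih h4

theorem one_le_f (K p : ℕ) : (1 : ℝ) ≤ 1 + (K : ℝ) / p := by
  have : (0 : ℝ) ≤ (K : ℝ) / p := by positivity
  linarith

theorem one_le_ww (K t : ℕ) : 1 ≤ ww K t := one_le_prod_real _ _ fun p _ => one_le_f K p

theorem one_le_WW (K : ℕ) (E : Finset ℕ) : 1 ≤ WW K E :=
  one_le_prod_real _ _ fun _ _ => one_le_prod_real _ _ fun _ _ => one_le_ww K _

/-- the primes of `(w, z]` which divide some difference -/
noncomputable def QQ (w z : ℕ) (E : Finset ℕ) : Finset ℕ :=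
  (pr w z).filter (fun p => ¬ ∀ e ∈ E, ∀ f ∈ E, e < f → ¬ p ∣ f - e)

/-- the primes of `(w, z]` which divide no difference -/
noncomputable def PP (w z : ℕ) (E : Finset ℕ) : Finset ℕ :=
  (pr w z).filter (fun p => ∀ e ∈ E, ∀ f ∈ E, e < f → ¬ p ∣ f - e)

theorem QQ_le (K w z : ℕ) (E : Finset ℕ) : ∏ p ∈ QQ w z E, (1 + (K : ℝ) / p) ≤ WW K E := by
  have h1 : WW K E = ∏ s ∈ E.sigma (fun e => E.filter (fun f => e < f)),
      ∏ p ∈ (s.2 - s.1).primeFactors, (1 + (K : ℝ) / p) := by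
    rw [Finset.prod_sigma]; rfl
  rw [h1]
  refine le_trans ?_ (prod_biUnion_le' (E.sigma (fun e => E.filter (fun f => e < f)))
    (fun s => (s.2 - s.1).primeFactors) (fun p => 1 + (K : ℝ) / p) (one_le_f K))
  have hsub : QQ w z E ⊆ (E.sigma (fun e => E.filter (fun f => e < f))).biUnion
      (fun s => (s.2 - s.1).primeFactors) := by
    intro p hp
    unfold QQ at hp
    rw [Finset.mem_filter] at hp
    obtain ⟨hp1, hp2⟩ := hp
    push Not at hp2
    obtain ⟨e, he, f, hf, hef, hd⟩ := hp2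
    have hpp : p.Prime := (Finset.mem_filter.1 hp1).2
    refine Finset.mem_biUnion.2 ⟨⟨e, f⟩, ?_, ?_⟩
    · exact Finset.mem_sigma.2 ⟨he, Finset.mem_filter.2 ⟨hf, hef⟩⟩
    · exact Nat.mem_primeFactors.2 ⟨hpp, hd, by simp only; omega⟩
  rw [← Finset.prod_sdiff hsub]
  refine le_mul_of_one_le_left ?_ ?_
  · exact Finset.prod_nonneg fun p _ => by linarith [one_le_f K p]
  · exact one_le_prod_real _ _ fun p _ => one_le_f K p

theorem PP_le (k w z : ℕ) (E : Finset ℕ) (hw : 2 * k + 2 ≤ w) :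
    ∏ p ∈ PP w z E, (1 - (k : ℝ) / p) ≤ om w z ^ k * WW (2 * k) E := by
  have hfac : ∀ p ∈ pr w z, 0 ≤ 1 - (k : ℝ) / p ∧ 1 - (k : ℝ) / p ≤ (1 - 1 / (p : ℝ)) ^ k ∧
      1 ≤ (1 - (k : ℝ) / p) * (1 + ((2 * k : ℕ) : ℝ) / p) := by
    intro p hp
    have hp' := Finset.mem_filter.1 hp
    have hwp : w < p := (Finset.mem_Ioc.1 hp'.1).1
    have hkp : (2 : ℝ) * k ≤ p := by
      have : 2 * k ≤ p := by omega
      exact_mod_cast this
    have hp0 : (0 : ℝ) < p := by
      have : 0 < p := by omega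
      exact_mod_cast this
    have hk0 : (0 : ℝ) ≤ k := Nat.cast_nonneg k
    have hu : (k : ℝ) / p ≤ 1 / 2 := by
      rw [div_le_iff₀ hp0]; linarith
    have hu0 : 0 ≤ (k : ℝ) / p := by positivity
    refine ⟨by linarith, ?_, ?_⟩
    · have h2 : (-2 : ℝ) ≤ -(1 / (p : ℝ)) := by
        have : 1 / (p : ℝ) ≤ 1 := by
          rw [div_le_one hp0]
          have : 1 ≤ p := by omega
          exact_mod_cast this
        linarith
      have h3 := one_add_mul_le_pow h2 k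
      calc 1 - (k : ℝ) / p = 1 + (k : ℝ) * -(1 / (p : ℝ)) := by ring
        _ ≤ _ := h3
        _ = _ := by ring_nf
    · have : ((2 * k : ℕ) : ℝ) / p = 2 * ((k : ℝ) / p) := by push_cast; ring
      rw [this]
      nlinarith
  have hsplit : (∏ p ∈ PP w z E, (1 - (k : ℝ) / p)) * ∏ p ∈ QQ w z E, (1 - (k : ℝ) / p)
      = ∏ p ∈ pr w z, (1 - (k : ℝ) / p) := by
    unfold PP QQ
    exact Finset.prod_filter_mul_prod_filter_not _ _ _
  have hP0 : 0 ≤ ∏ p ∈ PP w z E, (1 - (k : ℝ) / p) :=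
    Finset.prod_nonneg fun p hp => (hfac p (Finset.mem_filter.1 hp).1).1
  have hQ1 : 1 ≤ (∏ p ∈ QQ w z E, (1 - (k : ℝ) / p)) *
      ∏ p ∈ QQ w z E, (1 + ((2 * k : ℕ) : ℝ) / p) := by
    rw [← Finset.prod_mul_distrib]
    exact one_le_prod_real _ _ fun p hp => (hfac p (Finset.mem_filter.1 hp).1).2.2
  have hpr : ∏ p ∈ pr w z, (1 - (k : ℝ) / p) ≤ om w z ^ k := by
    unfold om
    rw [← Finset.prod_pow]
    exact Finset.prod_le_prod (fun p hp => (hfac p hp).1) (fun p hp => (hfac p hp).2.1)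
  have hpr0 : 0 ≤ ∏ p ∈ pr w z, (1 - (k : ℝ) / p) :=
    Finset.prod_nonneg fun p hp => (hfac p hp).1
  have hQ0 : 0 ≤ ∏ p ∈ QQ w z E, (1 + ((2 * k : ℕ) : ℝ) / p) :=
    Finset.prod_nonneg fun p _ => by linarith [one_le_f (2 * k) p]
  calc ∏ p ∈ PP w z E, (1 - (k : ℝ) / p)
      ≤ (∏ p ∈ PP w z E, (1 - (k : ℝ) / p)) * ((∏ p ∈ QQ w z E, (1 - (k : ℝ) / p)) *
      ∏ p ∈ QQ w z E, (1 + ((2 * k : ℕ) : ℝ) / p)) := le_mul_of_one_le_right hP0 hQ1
    _ = (∏ p ∈ pr w z, (1 - (k : ℝ) / p)) * ∏ p ∈ QQ w z E, (1 + ((2 * k : ℕ) : ℝ) / p) := by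
        rw [← hsplit]; ring
    _ ≤ om w z ^ k * WW (2 * k) E :=
        mul_le_mul hpr (QQ_le _ _ _ _) hQ0 (le_trans hpr0 hpr)

/-- the classes `-e` modulo `p` -/
def cl (E : Finset ℕ) (p : ℕ) : Finset ℕ := E.image (fun e => (p - e % p) % p)

theorem dvd_iff (p n e : ℕ) (hp : 0 < p) : n % p = (p - e % p) % p ↔ p ∣ n + e := by
  constructor
  · intro h
    have h1 : n ≡ p - e % p [MOD p] := h
    have h2 : n + e ≡ (p - e % p) + e % p [MOD p] :=
      h1.add (Nat.mod_modEq e p).symm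
    have h3 : (p - e % p) + e % p = p := by
      have := Nat.mod_lt e hp; omega
    rw [h3] at h2
    have h4 : n + e ≡ 0 [MOD p] := h2.trans (by simp [Nat.ModEq])
    exact (Nat.modEq_zero_iff_dvd).1 h4
  · intro h
    have h3 : (p - e % p) + e % p = p := by
      have := Nat.mod_lt e hp; omega
    have h4 : n + e % p ≡ (p - e % p) + e % p [MOD p] := by
      rw [h3]
      have h5 : n + e ≡ 0 [MOD p] := (Nat.modEq_zero_iff_dvd).2 h
      have h6 : n + e % p ≡ n + e [MOD p] := (Nat.ModEq.refl n).add (Nat.mod_modEq e p)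
      exact (h6.trans h5).trans (by simp [Nat.ModEq])
    exact Nat.ModEq.add_right_cancel' _ h4

theorem cl_card (w z : ℕ) (E : Finset ℕ) (p : ℕ) (hp : p ∈ PP w z E) : (cl E p).card = E.card := by
  have hp1 := (Finset.mem_filter.1 hp)
  have hpp : p.Prime := (Finset.mem_filter.1 hp1.1).2
  have key : ∀ e ∈ E, ∀ f ∈ E, (p - e % p) % p = (p - f % p) % p → ¬ e < f := by
    intro e he f hf h hlt
    refine hp1.2 e he f hf hlt ?_
    -- `p - e % p` is `≡ -e`
    have h1 : (p - e % p) % p = (p - f % p) % p := h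
    have h2 : p ∣ (p - e % p) + e := (dvd_iff p (p - e % p) e hpp.pos).1 rfl
    have h3 : p ∣ (p - e % p) + f := (dvd_iff p (p - e % p) f hpp.pos).1 h1
    have h4 : p ∣ ((p - e % p) + f) - ((p - e % p) + e) := Nat.dvd_sub h3 h2
    have h5 : ((p - e % p) + f) - ((p - e % p) + e) = f - e := by omega
    rwa [h5] at h4
  refine Finset.card_image_of_injOn ?_
  intro e he f hf h
  rcases lt_trichotomy e f with hlt | heq | hgt
  · exact absurd hlt (key e he f hf h)
  · exact heq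
  · exact absurd hgt (key f hf e he h.symm)

theorem t (h : StmtSV1) : StmtSV2 := by
  intro k
  obtain ⟨W0, D0, C1, hW0, hD0, hC1, hsv⟩ := h k
  obtain ⟨C2, hC2, hmp⟩ := Pool.Agent.Helper37.PP.mp
  set B : ℝ := C2 * Real.log W0 * (2 * ((D0 : ℝ) + 1)) with hB
  have hW2 : 2 ≤ W0 := by omega
  have hlogW : 0 < Real.log W0 := Real.log_pos (by exact_mod_cast hW2)
  have hB0 : 0 < B := by positivity
  have hC1' : 0 < C1 := by linarith
  refine ⟨1 + C1 * B ^ k, by nlinarith [pow_pos hB0 k, mul_pos hC1' (pow_pos hB0 k)], ?_⟩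
  -- large x
  have ev1 : ∀ᶠ x : ℕ in atTop, Real.log (x : ℝ) ^ (2 * k) ≤ x := by
    have h1 := (Real.isLittleO_pow_log_id_atTop (n := 2 * k)).bound (show (0 : ℝ) < 1 by norm_num)
    have h2 := tendsto_natCast_atTop_atTop (R := ℝ) |>.eventually h1
    filter_upwards [h2] with x hx
    rw [one_mul] at hx
    calc Real.log (x : ℝ) ^ (2 * k) ≤ ‖Real.log (x : ℝ) ^ (2 * k)‖ := Real.le_norm_self _
      _ ≤ ‖id (x : ℝ)‖ := hx
      _ = x := by simp
  have ev2 : ∀ᶠ x : ℕ in atTop, ((W0 : ℝ) + 1) ^ (D0 + 1) ≤ x :=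
    tendsto_natCast_atTop_atTop (R := ℝ) |>.eventually (eventually_ge_atTop _)
  have ev3 : ∀ᶠ x : ℕ in atTop, 2 * ((D0 : ℝ) + 1) * Real.log 2 ≤ Real.log x :=
    (Real.tendsto_log_atTop.comp (tendsto_natCast_atTop_atTop (R := ℝ))).eventually
      (eventually_ge_atTop _)
  obtain ⟨x0, hx0⟩ := Filter.eventually_atTop.1 (ev1.and (ev2.and (ev3.and (eventually_ge_atTop 3))))
  refine ⟨x0, fun x hx E hE => ?_⟩
  obtain ⟨hx1, hx2, hx3, hx4⟩ := hx0 x hx
  have hxr : (3 : ℝ) ≤ x := by exact_mod_cast hx4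
  have hxpos : (0 : ℝ) < x := by linarith
  have hlogx : 0 < Real.log x := Real.log_pos (by linarith)
  have hD1 : (0 : ℝ) < (D0 : ℝ) + 1 := by positivity
  set y : ℝ := (x : ℝ) ^ ((1 : ℝ) / ((D0 : ℝ) + 1)) with hy
  have hy0 : 0 ≤ y := Real.rpow_nonneg hxpos.le _
  have hypow : y ^ (D0 + 1) = x := by
    rw [hy, ← Real.rpow_natCast, ← Real.rpow_mul hxpos.le]
    have : (1 : ℝ) / ((D0 : ℝ) + 1) * ((D0 + 1 : ℕ) : ℝ) = 1 := by
      push_cast; field_simp
    rw [this, Real.rpow_one]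
  set z : ℕ := ⌊y⌋₊ with hz
  have hzy : (z : ℝ) ≤ y := Nat.floor_le hy0
  have hyW : (W0 : ℝ) + 1 ≤ y := by
    by_contra hcon
    push Not at hcon
    have : y ^ (D0 + 1) < ((W0 : ℝ) + 1) ^ (D0 + 1) := pow_lt_pow_left₀ hcon hy0 (by omega)
    rw [hypow] at this
    linarith
  have hzW : W0 + 1 ≤ z := Nat.le_floor (by push_cast; exact hyW)
  have hz1 : 1 ≤ z := by omega
  have hzpow : z ^ (D0 + 1) ≤ x := by
    have : ((z ^ (D0 + 1) : ℕ) : ℝ) ≤ x := by
      push_cast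
      rw [← hypow]
      exact pow_le_pow_left₀ (Nat.cast_nonneg z) hzy _
    exact_mod_cast this
  have hzD : z ^ D0 ≤ x := le_trans (Nat.pow_le_pow_right hz1 (by omega)) hzpow
  have hz2 : z ^ 2 ≤ x := le_trans (Nat.pow_le_pow_right hz1 (by omega)) hzpow
  have hzr : (1 : ℝ) ≤ z := by exact_mod_cast hz1
  -- log z
  have hlogz : Real.log x ≤ 2 * ((D0 : ℝ) + 1) * Real.log z := by
    have h1 : y ≤ 2 * z := by
      have := Nat.lt_floor_add_one y
      rw [← hz] at this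
      linarith
    have hypos : 0 < y := by linarith [show (0 : ℝ) ≤ W0 from Nat.cast_nonneg _]
    have h2 : Real.log y ≤ Real.log 2 + Real.log z := by
      rw [← Real.log_mul (by norm_num) (by linarith)]
      exact Real.log_le_log hypos h1
    have h3 : Real.log x = ((D0 : ℝ) + 1) * Real.log y := by
      rw [← hypow, Real.log_pow]; push_cast; ring
    nlinarith
  have hlogz0 : 0 < Real.log z := by
    by_contra hcon
    push Not at hcon
    have : 2 * ((D0 : ℝ) + 1) * Real.log z ≤ 0 :=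
      mul_nonpos_of_nonneg_of_nonpos (by positivity) hcon
    linarith
  -- the sieve
  have hsv' := hsv z x (PP W0 z E) (cl E) (by omega) hzD (by
    intro p hp
    have hp1 := (Finset.mem_filter.1 hp)
    have hp2 := (Finset.mem_filter.1 hp1.1)
    have hpp : p.Prime := hp2.2
    refine ⟨hpp, (Finset.mem_Ioc.1 hp2.1).1, (Finset.mem_Ioc.1 hp2.1).2, ?_, ?_⟩
    · rw [cl_card W0 z E p hp, hE]
    · intro c hc
      obtain ⟨e, _, rfl⟩ := Finset.mem_image.1 hc
      exact Nat.mod_lt _ hpp.pos)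
  have hNN : NN x E ≤ z + (((Icc 1 x).filter (fun n => ∀ p ∈ PP W0 z E, n % p ∉ cl E p)).card : ℝ) := by
    unfold NN
    have hsub : (Icc 1 x).filter (fun n => ∀ e ∈ E, (n + e).Prime) ⊆
        Icc 1 z ∪ (Icc 1 x).filter (fun n => ∀ p ∈ PP W0 z E, n % p ∉ cl E p) := by
      intro n hn
      obtain ⟨hn1, hn2⟩ := Finset.mem_filter.1 hn
      have hn3 := Finset.mem_Icc.1 hn1
      by_cases hnz : n ≤ z
      · exact Finset.mem_union_left _ (Finset.mem_Icc.2 ⟨hn3.1, hnz⟩)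
      · refine Finset.mem_union_right _ (Finset.mem_filter.2 ⟨hn1, ?_⟩)
        intro p hp hmem
        have hp1 := (Finset.mem_filter.1 hp)
        have hp2 := (Finset.mem_filter.1 hp1.1)
        have hpp : p.Prime := hp2.2
        have hpz : p ≤ z := (Finset.mem_Ioc.1 hp2.1).2
        obtain ⟨e, he, hee⟩ := Finset.mem_image.1 hmem
        have hd : p ∣ n + e := (dvd_iff p n e hpp.pos).1 hee.symm
        have hprime := hn2 e he
        rcases (Nat.dvd_prime hprime).1 hd with h1 | h1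
        · exact hpp.one_lt.ne' h1
        · omega
    calc (((Icc 1 x).filter (fun n => ∀ e ∈ E, (n + e).Prime)).card : ℝ)
        ≤ ((Icc 1 z ∪ (Icc 1 x).filter (fun n => ∀ p ∈ PP W0 z E, n % p ∉ cl E p)).card : ℝ) := by
          exact_mod_cast Finset.card_le_card hsub
      _ ≤ ((Icc 1 z).card : ℝ) + (((Icc 1 x).filter (fun n => ∀ p ∈ PP W0 z E, n % p ∉ cl E p)).card : ℝ) := by
          exact_mod_cast Finset.card_union_le _ _
      _ = _ := by simp
  have hPP := PP_le k W0 z E hW0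
  have hWW := one_le_WW (2 * k) E
  have hWW0 : 0 ≤ WW (2 * k) E := by linarith
  -- om
  have hom : om W0 z ≤ B / Real.log x := by
    refine le_trans (hmp W0 z hW2 (by omega)) ?_
    rw [hB, le_div_iff₀ hlogx]
    have h1 : C2 * (Real.log W0 / Real.log z) * Real.log x
        = C2 * Real.log W0 * (Real.log x / Real.log z) := by ring
    rw [h1]
    refine mul_le_mul_of_nonneg_left ?_ (by positivity)
    rw [div_le_iff₀ hlogz0]
    exact hlogz
  have hom0 : 0 ≤ om W0 z := by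
    unfold om
    refine Finset.prod_nonneg fun p hp => ?_
    have hp2 := (Finset.mem_filter.1 hp)
    have h1 : (1 : ℝ) ≤ p := by exact_mod_cast hp2.2.one_lt.le
    have h2 : 1 / (p : ℝ) ≤ 1 := by
      rw [div_le_one (by linarith)]; exact h1
    linarith
  have homk : om W0 z ^ k ≤ B ^ k / Real.log x ^ k := by
    rw [← div_pow]
    exact pow_le_pow_left₀ hom0 hom k
  -- z is small
  have hzs : (z : ℝ) ≤ x / Real.log x ^ k := by
    rw [le_div_iff₀ (pow_pos hlogx k)]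
    have h0 : (0 : ℝ) ≤ z * Real.log x ^ k := by positivity
    have h1 : ((z : ℝ) * Real.log x ^ k) ^ 2 ≤ (x : ℝ) ^ 2 := by
      have h2 : (z : ℝ) ^ 2 ≤ x := by exact_mod_cast hz2
      calc ((z : ℝ) * Real.log x ^ k) ^ 2 = (z : ℝ) ^ 2 * Real.log x ^ (2 * k) := by
            rw [mul_pow, ← pow_mul, Nat.mul_comm k 2]
        _ ≤ (x : ℝ) * x := mul_le_mul h2 hx1 (by positivity) hxpos.le
        _ = (x : ℝ) ^ 2 := by ring
    exact (pow_le_pow_iff_left₀ h0 hxpos.le (by norm_num)).1 h1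
  have hX0 : 0 ≤ (x : ℝ) / Real.log x ^ k := by positivity
  calc NN x E ≤ z + (((Icc 1 x).filter (fun n => ∀ p ∈ PP W0 z E, n % p ∉ cl E p)).card : ℝ) := hNN
    _ ≤ z + C1 * (x * ∏ p ∈ PP W0 z E, (1 - (k : ℝ) / p)) := by linarith
    _ ≤ x / Real.log x ^ k * WW (2 * k) E +
        C1 * (x * (B ^ k / Real.log x ^ k * WW (2 * k) E)) := by
        refine add_le_add (le_trans hzs (le_mul_of_one_le_right hX0 hWW)) ?_
        refine mul_le_mul_of_nonneg_left ?_ hC1'.le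
        refine mul_le_mul_of_nonneg_left ?_ hxpos.le
        exact le_trans hPP (mul_le_mul_of_nonneg_right homk hWW0)
    _ = (1 + C1 * B ^ k) * (x / Real.log x ^ k) * WW (2 * k) E := by ring

end Pool.Agent.Helper36.PS.SV2
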